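import Pool.Agent.Lib.MP_a247fa_nt.Ver.Upto
import Pool.Agent.Lib.MP_a247fa_nt.IntSmall

/-!
Nontrivial integer cycles of `T` lie above `2 * 10^7` and have period at least `20000`
(check of the Collatz conjecture up to `2 * 10^7`, and the convergents `1054/665`, `485/306`
of `log 3 / log 2`).
-/

set_option autoImplicit false

namespace Pool.Agent.Lib.MP_a247fa_nt.Cyc

open Real Function Pool.Agent.Lib.MP_a247fa_nt

/-- A periodic orbit of `T` through a positive integer other than `1, 2` stays above `2 * 10^7`. -/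
lemma huge_of_periodic {n p : ℕ} (hn : 0 < n) (hp : 0 < p) (hper : T^[p] n = n) (h1 : n ≠ 1)
    (h2 : n ≠ 2) (k : ℕ) : 20000001 ≤ T^[k] n := by
  by_contra hcon
  push Not at hcon
  have hpos := T_iter_pos hn k
  obtain ⟨j, hj⟩ := Ver.reach_upto (T^[k] n) hpos (by omega)
  rw [← Function.iterate_add_apply] at hj
  have hq : T^[p * (j + k)] n = n := by
    rw [Function.iterate_mul]
    exact Function.iterate_fixed hper _
  have hle : j + k ≤ p * (j + k) := Nat.le_mul_of_pos_left _ hp
  obtain ⟨l, hl⟩ := Nat.exists_eq_add_of_le hle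
  rw [hl, add_comm (j + k) l, Function.iterate_add_apply, hj] at hq
  rcases orbit_one l with h | h <;> rw [h] at hq <;> omega

/-- The growth of `T` along an orbit that stays at `N` or above. -/
lemma growth_bound' {N n : ℕ} (hlarge : ∀ k, N ≤ T^[k] n) (p : ℕ) :
    ∃ a ≤ p, 3 ^ a * n ≤ 2 ^ p * T^[p] n ∧ N ^ a * (2 ^ p * T^[p] n) ≤ (3 * N + 1) ^ a * n := by
  induction p with
  | zero => exact ⟨0, le_rfl, by simp, by simp⟩
  | succ p ih =>
    obtain ⟨a, ha, h1, h2⟩ := ih
    rw [Function.iterate_succ_apply']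
    have hl := hlarge p
    set x := T^[p] n with hx
    rcases Nat.mod_two_eq_zero_or_one x with hpar | hpar
    · refine ⟨a, by omega, ?_, ?_⟩
      · have : 2 * T x = x := by unfold T; rw [if_pos hpar]; omega
        calc 3 ^ a * n ≤ 2 ^ p * x := h1
          _ = 2 ^ p * (2 * T x) := by rw [this]
          _ = 2 ^ (p + 1) * T x := by ring
      · have : 2 * T x = x := by unfold T; rw [if_pos hpar]; omega
        calc N ^ a * (2 ^ (p + 1) * T x) = N ^ a * (2 ^ p * (2 * T x)) := by ring
          _ = N ^ a * (2 ^ p * x) := by rw [this]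
          _ ≤ (3 * N + 1) ^ a * n := h2
    · have hT : 2 * T x = 3 * x + 1 := by unfold T; rw [if_neg (by omega)]; omega
      refine ⟨a + 1, by omega, ?_, ?_⟩
      · calc 3 ^ (a + 1) * n = 3 * (3 ^ a * n) := by ring
          _ ≤ 3 * (2 ^ p * x) := Nat.mul_le_mul_left _ h1
          _ ≤ 2 ^ p * (3 * x + 1) := by nlinarith [Nat.pos_of_ne_zero (pow_ne_zero p two_ne_zero)]
          _ = 2 ^ p * (2 * T x) := by rw [hT]
          _ = 2 ^ (p + 1) * T x := by ring
      · have h3 : N * (3 * x + 1) ≤ (3 * N + 1) * x := by nlinarith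
        calc N ^ (a + 1) * (2 ^ (p + 1) * T x)
            = N ^ a * 2 ^ p * (N * (2 * T x)) := by ring
          _ = N ^ a * 2 ^ p * (N * (3 * x + 1)) := by rw [hT]
          _ ≤ N ^ a * 2 ^ p * ((3 * N + 1) * x) := Nat.mul_le_mul_left _ h3
          _ = (3 * N + 1) * (N ^ a * (2 ^ p * x)) := by ring
          _ ≤ (3 * N + 1) * ((3 * N + 1) ^ a * n) := Nat.mul_le_mul_left _ h2
          _ = (3 * N + 1) ^ (a + 1) * n := by ring

lemma u_pos : 0 < 665 * Real.log 3 - 1054 * Real.log 2 := by
  have h : (2 : ℝ) ^ 1054 < 3 ^ 665 := by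
    have h0 : 2 ^ 1054 < 3 ^ 665 := by decide +kernel
    exact_mod_cast h0
  have h2 := Real.log_lt_log (by positivity) h
  rw [Real.log_pow, Real.log_pow] at h2
  push_cast at h2
  linarith

lemma u_le : 665 * Real.log 3 - 1054 * Real.log 2 ≤ 0.000043656 := by
  have h : (3 : ℝ) ^ 665 / 2 ^ 1054 ≤ 1.000043656 := by
    rw [div_le_iff₀ (by positivity)]
    have h0 : 3 ^ 665 * 125000000 ≤ 125005457 * 2 ^ 1054 := by decide +kernel
    have h1 : (3 : ℝ) ^ 665 * 125000000 ≤ 125005457 * 2 ^ 1054 := by exact_mod_cast h0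
    generalize (3 : ℝ) ^ 665 = A at *
    generalize (2 : ℝ) ^ 1054 = B at *
    clear h0
    linarith
  have h2 := Real.log_le_sub_one_of_pos (show (0 : ℝ) < 3 ^ 665 / 2 ^ 1054 by positivity)
  rw [Real.log_div (by positivity) (by positivity), Real.log_pow, Real.log_pow] at h2
  push_cast at h2
  linarith

lemma v_ge : 0.0010217 ≤ 485 * Real.log 2 - 306 * Real.log 3 := by
  have h : (3 : ℝ) ^ 306 / 2 ^ 485 ≤ 0.9989783 := by
    rw [div_le_iff₀ (by positivity)]
    have h0 : 3 ^ 306 * 10000000 ≤ 9989783 * 2 ^ 485 := by decide +kernel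
    have h1 : (3 : ℝ) ^ 306 * 10000000 ≤ 9989783 * 2 ^ 485 := by exact_mod_cast h0
    generalize (3 : ℝ) ^ 306 = A at *
    generalize (2 : ℝ) ^ 485 = B at *
    clear h0
    linarith
  have h2 := Real.log_le_sub_one_of_pos (show (0 : ℝ) < 3 ^ 306 / 2 ^ 485 by positivity)
  rw [Real.log_div (by positivity) (by positivity), Real.log_pow, Real.log_pow] at h2
  push_cast at h2
  linarith

/-- `2^p / 3^a` slightly above `1` forces `a ≥ 12650`. -/
lemma close_powers {p a : ℕ} (h1 : 3 ^ a < 2 ^ p)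
    (h2 : 20000001 ^ a * 2 ^ p ≤ (3 * 20000001 + 1) ^ a) : 20000 ≤ p := by
  have hL2 := Real.log_pos (show (1 : ℝ) < 2 by norm_num)
  have hL3 := Real.log_pos (show (1 : ℝ) < 3 by norm_num)
  have hu0 := u_pos
  have hu1 := u_le
  have hv := v_ge
  have h1' : (a : ℝ) * Real.log 3 < p * Real.log 2 := by
    have h : (3 : ℝ) ^ a < 2 ^ p := by exact_mod_cast h1
    have h3 := Real.log_lt_log (by positivity) h
    rwa [Real.log_pow, Real.log_pow] at h3
  have h2' : (p : ℝ) * Real.log 2 ≤ a * (Real.log 3 + 1 / 60000003) := by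
    have h : (20000001 : ℝ) ^ a * 2 ^ p ≤ (3 * 20000001 + 1) ^ a := by exact_mod_cast h2
    have h3 := Real.log_le_log (by positivity) h
    rw [Real.log_mul (by positivity) (by positivity), Real.log_pow, Real.log_pow,
      Real.log_pow] at h3
    have h4 : Real.log (3 * 20000001 + 1) = Real.log 20000001 + Real.log 3 +
        Real.log (1 + 1 / 60000003) := by
      rw [← Real.log_mul (by norm_num) (by norm_num), ← Real.log_mul (by norm_num) (by norm_num)]
      congr 1
      norm_num
    have h5 : Real.log (1 + 1 / 60000003) ≤ 1 / 60000003 := by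
      have := Real.log_le_sub_one_of_pos (show (0 : ℝ) < 1 + 1 / 60000003 by norm_num)
      linarith
    rw [h4] at h3
    have ha : (0 : ℝ) ≤ a := Nat.cast_nonneg a
    nlinarith [mul_le_mul_of_nonneg_left h5 ha]
  set u := 665 * Real.log 3 - 1054 * Real.log 2 with hu
  set v := 485 * Real.log 2 - 306 * Real.log 3 with hvd
  -- coordinates
  set X : ℤ := 485 * a - 306 * p with hX
  set Y : ℤ := 665 * p - 1054 * a with hY
  have eP : (p : ℝ) = 1054 * (X : ℝ) + 485 * (Y : ℝ) := by
    rw [hX, hY]; push_cast; ring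
  have eA : (a : ℝ) = 665 * (X : ℝ) + 306 * (Y : ℝ) := by
    rw [hX, hY]; push_cast; ring
  have eD : (p : ℝ) * Real.log 2 - a * Real.log 3 = -(X * u) + Y * v := by
    rw [eP, eA, hu, hvd]; ring
  have hd0 : 0 < -(X * u) + Y * v := by rw [← eD]; linarith
  have hd1 : -(X * u) + Y * v ≤ a / 60000003 := by rw [← eD]; linarith
  have ha0 : (0 : ℝ) ≤ a := Nat.cast_nonneg a
  have hY1 : 1 ≤ Y := by
    by_contra hcon
    have hY0 : Y ≤ 0 := by omega
    have hYR : (Y : ℝ) ≤ 0 := by exact_mod_cast hY0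
    have hXu : (X : ℝ) * u < 0 := by nlinarith
    have hXR : (X : ℝ) < 0 := by
      by_contra h
      push Not at h
      nlinarith
    nlinarith
  have hYR : (1 : ℝ) ≤ Y := by exact_mod_cast hY1
  have hXu : (Y : ℝ) * v - a / 60000003 ≤ X * u := by linarith
  have hXu1 : 0.0010217 - a / 60000003 ≤ X * u := by nlinarith
  have ha1 : (12650 : ℝ) ≤ a := by
    by_contra hcon
    push Not at hcon
    have h3 : (0.0010217 : ℝ) - 12650 / 60000003 ≤ X * u := by
      have : (a : ℝ) / 60000003 ≤ 12650 / 60000003 := by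
        apply div_le_div_of_nonneg_right hcon.le (by norm_num)
      linarith
    have hX0 : (0 : ℝ) < X := by
      by_contra h
      push Not at h
      have : (0 : ℝ) < 0.0010217 - 12650 / 60000003 := by norm_num
      nlinarith
    have h4 : (X : ℝ) * u ≤ X * 0.000043656 := mul_le_mul_of_nonneg_left hu1 hX0.le
    have h5 : (0.0010217 : ℝ) - a / 60000003 ≤ X * 0.000043656 := by linarith
    have h6 : (X : ℝ) ≤ (a - 306) / 665 := by
      rw [le_div_iff₀ (by norm_num)]
      nlinarith
    have h7 : (0.0010217 : ℝ) - a / 60000003 ≤ (a - 306) / 665 * 0.000043656 := by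
      refine h5.trans ?_
      exact mul_le_mul_of_nonneg_right h6 (by norm_num)
    have : (0.0010217 : ℝ) ≤ a / 60000003 + (a - 306) / 665 * 0.000043656 := by linarith
    norm_num at this
    linarith
  have h8 : (1.584 : ℝ) * Real.log 2 < Real.log 3 := by
    have h : (2 : ℝ) ^ 1584 < 3 ^ 1000 := by
      have h0 : 2 ^ 1584 < 3 ^ 1000 := by decide +kernel
      exact_mod_cast h0
    have h2 := Real.log_lt_log (by positivity) h
    rw [Real.log_pow, Real.log_pow] at h2
    push_cast at h2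
    linarith
  have h9 : (1.584 : ℝ) * a ≤ p := by
    have : (1.584 : ℝ) * a * Real.log 2 ≤ p * Real.log 2 := by
      have := mul_le_mul_of_nonneg_left h8.le ha0
      nlinarith
    exact le_of_mul_le_mul_right this hL2
  have h10 : (20000 : ℝ) ≤ p := by linarith
  exact_mod_cast h10

/-- Nontrivial cycles of `T` have period at least `20000`. -/
lemma very_long_of_periodic {n p : ℕ} (hn : 0 < n) (hp : 0 < p) (hper : T^[p] n = n) (h1 : n ≠ 1)
    (h2 : n ≠ 2) : 20000 ≤ p := by
  obtain ⟨a, ha, h3, h4⟩ := growth_bound' (huge_of_periodic hn hp hper h1 h2) p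
  rw [hper] at h3 h4
  have h3' : 3 ^ a ≤ 2 ^ p := Nat.le_of_mul_le_mul_right h3 hn
  have h4' : 20000001 ^ a * 2 ^ p ≤ (3 * 20000001 + 1) ^ a := by
    rw [← mul_assoc] at h4
    exact Nat.le_of_mul_le_mul_right h4 hn
  have hne : 3 ^ a ≠ 2 ^ p := by
    intro he
    have h5 : Odd (3 ^ a) := Odd.pow (by decide)
    rw [he] at h5
    have h6 : Even (2 ^ p) := (Nat.even_pow).mpr ⟨even_two, hp.ne'⟩
    exact (Nat.not_even_iff_odd.mpr h5) h6
  exact close_powers (lt_of_le_of_ne h3' hne) h4'

end Pool.Agent.Lib.MP_a247fa_nt.Cyc
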