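import Pool.Agent.Lib.MP_a247fa_nt.Accum
import Pool.Agent.Lib.MP_a247fa_nt.Singer2
import Pool.Agent.Lib.MP_a247fa_nt.Cyc.Long

/-!
# Attracting cycles of the real Collatz extension and its critical orbits

Every attracting cycle of `cf` in the positive reals, other than the two known ones, either
shadows a nontrivial integer cycle of the Collatz map `T`, or attracts one of the critical points
`c n`, the only critical point of `cf` in `[2n - 1/2, 2n)`, where `2n` has a Collatz trajectory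
exceeding `12/5 * 2n`; and in the latter case it attracts no critical point of any other kind.
-/

set_option autoImplicit false

namespace Pool.Agent.Lib.MP_a247fa_nt.Cyc

open Real Function Filter Topology Pool.Agent.Lib.MP_a247fa_nt

/-- Auxiliary concave function whose value `1` marks the critical points left of `N`. -/
noncomputable def psi (N : ℝ) (e : ℝ) : ℝ :=
  (2 * N + 1 - 2 * e) * (π / 4) * Real.sin (π * e) + Real.cos (π * e) / 2

lemma dcf_left {n : ℕ} (h : n % 2 = 0) (e : ℝ) :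
    dcf (n - e) = 1 - psi n e := by
  have h1 := dcf_even n h (-e)
  have e1 : π * -e = -(π * e) := by ring
  rw [e1, Real.cos_neg, Real.sin_neg] at h1
  have e2 : (n : ℝ) - e = n + -e := by ring
  rw [e2, h1]
  unfold psi
  ring

lemma hasDerivAt_sin (e : ℝ) : HasDerivAt (fun e : ℝ => Real.sin (π * e)) (π * Real.cos (π * e)) e := by
  have h1 : HasDerivAt (fun y : ℝ => π * y) π e := by
    simpa using (hasDerivAt_id e).const_mul π
  have := h1.sin
  rwa [mul_comm] at this

lemma hasDerivAt_cos (e : ℝ) :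
    HasDerivAt (fun e : ℝ => Real.cos (π * e)) (-(π * Real.sin (π * e))) e := by
  have h1 : HasDerivAt (fun y : ℝ => π * y) π e := by
    simpa using (hasDerivAt_id e).const_mul π
  have := h1.cos
  refine this.congr_deriv ?_
  ring

lemma hasDerivAt_psi (N e : ℝ) : HasDerivAt (psi N)
    (-π * Real.sin (π * e) + (2 * N + 1 - 2 * e) * (π ^ 2 / 4) * Real.cos (π * e)) e := by
  have h1 : HasDerivAt (fun e : ℝ => (2 * N + 1 - 2 * e) * (π / 4)) (-2 * (π / 4)) e := by
    have := ((hasDerivAt_id e).const_mul 2).const_sub (2 * N + 1)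
    have := this.mul_const (π / 4)
    simpa using this
  have h2 := (h1.mul (hasDerivAt_sin e)).add ((hasDerivAt_cos e).div_const 2)
  unfold psi
  refine h2.congr_deriv ?_
  ring

lemma hasDerivAt_psi' (N e : ℝ) : HasDerivAt
    (fun e => -π * Real.sin (π * e) + (2 * N + 1 - 2 * e) * (π ^ 2 / 4) * Real.cos (π * e))
    (-(3 / 2 * π ^ 2) * Real.cos (π * e)
      - (2 * N + 1 - 2 * e) * (π ^ 3 / 4) * Real.sin (π * e)) e := by
  have h1 : HasDerivAt (fun e : ℝ => (2 * N + 1 - 2 * e) * (π ^ 2 / 4)) (-2 * (π ^ 2 / 4)) e := by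
    have := ((hasDerivAt_id e).const_mul 2).const_sub (2 * N + 1)
    have := this.mul_const (π ^ 2 / 4)
    simpa using this
  have h2 := ((hasDerivAt_sin e).const_mul (-π)).add (h1.mul (hasDerivAt_cos e))
  refine h2.congr_deriv ?_
  ring

lemma psi_concave {N : ℝ} (hN : 0 ≤ N) : ConcaveOn ℝ (Set.Icc 0 (1 / 2)) (psi N) := by
  apply concaveOn_of_hasDerivWithinAt2_nonpos (convex_Icc _ _)
    (f' := fun e => -π * Real.sin (π * e) + (2 * N + 1 - 2 * e) * (π ^ 2 / 4) * Real.cos (π * e))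
    (f'' := fun e => -(3 / 2 * π ^ 2) * Real.cos (π * e)
      - (2 * N + 1 - 2 * e) * (π ^ 3 / 4) * Real.sin (π * e))
  · exact fun e _ => (hasDerivAt_psi N e).continuousAt.continuousWithinAt
  · exact fun e _ => (hasDerivAt_psi N e).hasDerivWithinAt
  · exact fun e _ => (hasDerivAt_psi' N e).hasDerivWithinAt
  · intro e he
    rw [interior_Icc] at he
    have hpi := Real.pi_pos
    have hc : 0 ≤ Real.cos (π * e) := by
      apply Real.cos_nonneg_of_mem_Icc
      constructor <;> nlinarith [he.1, he.2]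
    have hs : 0 ≤ Real.sin (π * e) := by
      apply Real.sin_nonneg_of_nonneg_of_le_pi
      · nlinarith [he.1]
      · nlinarith [he.2]
    have hM : 0 ≤ 2 * N + 1 - 2 * e := by linarith [he.2]
    have h1 : 0 ≤ (3 / 2 * π ^ 2) * Real.cos (π * e) := by positivity
    have h2 : 0 ≤ (2 * N + 1 - 2 * e) * (π ^ 3 / 4) * Real.sin (π * e) := by positivity
    change -(3 / 2 * π ^ 2) * Real.cos (π * e)
      - (2 * N + 1 - 2 * e) * (π ^ 3 / 4) * Real.sin (π * e) ≤ 0
    linarith

lemma psi_half {N : ℝ} (hN : 2 ≤ N) : 1 < psi N (1 / 2) := by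
  unfold psi
  have e1 : π * (1 / 2) = π / 2 := by ring
  rw [e1, Real.sin_pi_div_two, Real.cos_pi_div_two]
  have := Real.pi_gt_three
  nlinarith

lemma psi_unique {N : ℝ} (hN : 2 ≤ N) {e₁ e₂ : ℝ} (h₁ : 0 ≤ e₁) (h₂ : e₂ ≤ 1 / 2)
    (hlt : e₁ < e₂) (hp₁ : psi N e₁ = 1) : psi N e₂ ≠ 1 := by
  have hcv := psi_concave (N := N) (by linarith)
  rcases h₂.eq_or_lt with rfl | h₂
  · exact (psi_half hN).ne'
  have hmem1 : e₁ ∈ Set.Icc (0 : ℝ) (1 / 2) := ⟨h₁, by linarith⟩
  have hmem2 : (1 / 2 : ℝ) ∈ Set.Icc (0 : ℝ) (1 / 2) := ⟨by norm_num, le_rfl⟩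
  set t : ℝ := (e₂ - e₁) / (1 / 2 - e₁) with ht
  have hd : 0 < 1 / 2 - e₁ := by linarith
  have ht0 : 0 < t := div_pos (by linarith) hd
  have ht1 : t < 1 := by rw [ht, div_lt_one hd]; linarith
  have h := hcv.2 hmem1 hmem2 (show 0 ≤ 1 - t by linarith) ht0.le (by ring)
  have he : (1 - t) • e₁ + t • (1 / 2 : ℝ) = e₂ := by
    simp only [smul_eq_mul]
    have : t * (1 / 2 - e₁) = e₂ - e₁ := by rw [ht]; exact div_mul_cancel₀ _ hd.ne'
    linarith
  rw [he] at h
  simp only [smul_eq_mul, hp₁] at h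
  have h3 := psi_half hN
  intro h4
  rw [h4] at h
  nlinarith

/-- For every even `N ≥ 2`, `cf` has exactly one critical point in `[N - 1/2, N)`. -/
lemma exists_crit (n : ℕ) (hn : 0 < n) : ∃ c : ℝ, 2 * (n : ℝ) - 1 / 2 ≤ c ∧ c < 2 * n ∧
    deriv cf c = 0 ∧ ∀ y, 2 * (n : ℝ) - 1 / 2 ≤ y → y < 2 * n → deriv cf y = 0 → y = c := by
  have hN : (2 : ℝ) ≤ 2 * n := by
    have : (1 : ℝ) ≤ n := by exact_mod_cast hn
    linarith
  have hcast : ((2 * n : ℕ) : ℝ) = 2 * n := by push_cast; ring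
  have hd : ∀ e : ℝ, deriv cf (2 * n - e) = 1 - psi (2 * n) e := by
    intro e
    rw [deriv_cf, ← hcast]
    exact dcf_left (by omega) e
  have hcont : ContinuousOn (psi (2 * n)) (Set.Icc 0 (1 / 2)) := fun e _ =>
    (hasDerivAt_psi _ e).continuousAt.continuousWithinAt
  have h0 : psi (2 * n) 0 = 1 / 2 := by unfold psi; simp
  have h1 := psi_half hN
  obtain ⟨e, he, hpe⟩ := intermediate_value_Icc (by norm_num : (0 : ℝ) ≤ 1 / 2) hcont
    (show (1 : ℝ) ∈ Set.Icc (psi (2 * n) 0) (psi (2 * n) (1 / 2)) from ⟨by rw [h0]; norm_num, h1.le⟩)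
  have he0 : 0 < e := by
    rcases he.1.eq_or_lt with h | h
    · rw [← h, h0] at hpe; norm_num at hpe
    · exact h
  refine ⟨2 * n - e, by linarith [he.2], by linarith, by rw [hd, hpe]; ring, ?_⟩
  intro y hy1 hy2 hy
  set e' : ℝ := 2 * n - y with he'
  have hye : y = 2 * n - e' := by rw [he']; ring
  rw [hye, hd] at hy
  have hpe' : psi (2 * n) e' = 1 := by linarith
  have : e' = e := by
    rcases lt_trichotomy e' e with h | h | h
    · exact absurd hpe (psi_unique hN (by linarith) he.2 h hpe')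
    · exact h
    · exact absurd hpe' (psi_unique hN he.1 (by linarith) h hpe)
  rw [hye, this]

/-- The critical point just left of `2n`. -/
noncomputable def crit (n : ℕ) : ℝ := if hn : 0 < n then (exists_crit n hn).choose else 0

lemma crit_spec (n : ℕ) (hn : 0 < n) : 2 * (n : ℝ) - 1 / 2 ≤ crit n ∧ crit n < 2 * n ∧
    deriv cf (crit n) = 0 ∧
      ∀ y, 2 * (n : ℝ) - 1 / 2 ≤ y → y < 2 * n → deriv cf y = 0 → y = crit n := by
  have : crit n = (exists_crit n hn).choose := by unfold crit; rw [dif_pos hn]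
  rw [this]
  exact (exists_crit n hn).choose_spec

lemma iter_back {x : ℝ} {p : ℕ} (hp : 0 < p) (hper : cf^[p] x = x) (i : ℕ) :
    cf^[p * i - i] (cf^[i] x) = x := by
  rw [← Function.iterate_add_apply]
  have h1 : p * i - i + i = p * i := Nat.sub_add_cancel (Nat.le_mul_of_pos_left i hp)
  rw [h1, Function.iterate_mul]
  exact Function.iterate_fixed hper i

lemma cluster_of_tendsto {x y : ℝ} {p : ℕ} (hp : 0 < p) (hper : cf^[p] x = x) {i : ℕ}
    (h : Tendsto (fun k => cf^[p * k] y) atTop (𝓝 (cf^[i] x))) :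
    MapClusterPt x atTop (fun k => cf^[k] y) := by
  have h1 : Tendsto (fun k => cf^[p * i - i] (cf^[p * k] y)) atTop (𝓝 x) := by
    have := ((continuous_cf.iterate (p * i - i)).tendsto (cf^[i] x)).comp h
    rw [iter_back hp hper i] at this
    exact this
  have h2 : Tendsto (fun k => cf^[p * i - i + p * k] y) atTop (𝓝 x) := by
    refine h1.congr (fun k => ?_)
    rw [← Function.iterate_add_apply]
  have h3 : Tendsto (fun k : ℕ => p * i - i + p * k) atTop atTop := by
    apply tendsto_atTop_mono (f := fun k : ℕ => k) _ tendsto_id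
    intro k
    have : k ≤ p * k := Nat.le_mul_of_pos_left k hp
    omega
  have h4 : MapClusterPt x atTop ((fun k => cf^[k] y) ∘ fun k : ℕ => p * i - i + p * k) :=
    Tendsto.mapClusterPt h2
  exact h4.of_comp h3

theorem dichotomy {x : ℝ} (hx0 : 0 < x) (ha : IsAttracting x)
    (hne : x ∉ ({1, 2, aPt, bPt} : Set ℝ)) :
    (20000 ≤ minimalPeriod cf x ∧ ∃ m : ℕ, 20000000 < m ∧ T^[minimalPeriod cf x] m = m ∧
      ∀ k : ℕ, ((T^[k] m : ℕ) : ℝ) ≤ cf^[k] x ∧
        cf^[k] x ≤ (T^[k] m : ℕ) + 4 / (5 * (2 * ((T^[k] m : ℕ) : ℝ) + 1))) ∨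
    ((∃ n i : ℕ, 0 < n ∧
        Tendsto (fun k => cf^[minimalPeriod cf x * k] (crit n)) atTop (𝓝 (cf^[i] x))) ∧
      ∀ y : ℝ, 0 < y → deriv cf y = 0 → MapClusterPt x atTop (fun k => cf^[k] y) →
        ∃ n : ℕ, 0 < n ∧ y = crit n ∧ ∃ k : ℕ, 12 / 5 * (2 * (n : ℝ)) < (T^[k] (2 * n) : ℕ)) := by
  have hp := ha.1
  have hper : cf^[minimalPeriod cf x] x = x := isPeriodicPt_minimalPeriod cf x
  set p := minimalPeriod cf x with hpdef
  by_cases htrap : ∃ m : ℕ, 0 < m ∧ T^[p] m = m ∧ x ∈ trapI m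
  · left
    obtain ⟨m, hm, hTm, hxm⟩ := htrap
    have h12 : m ≠ 1 ∧ m ≠ 2 := by
      by_contra hle
      have h12 : m = 1 ∨ m = 2 := by
        by_contra hcon
        push Not at hcon
        exact hle hcon
      apply hne
      have : x ∈ trapI 1 ∨ x ∈ trapI 2 := by
        rcases h12 with rfl | rfl
        · exact Or.inl hxm
        · exact Or.inr hxm
      exact attracting_one_two this ha
    have hbig := huge_of_periodic hm hp hTm h12.1 h12.2 0
    simp only [Function.iterate_zero_apply] at hbig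
    exact ⟨very_long_of_periodic hm hp hTm h12.1 h12.2, m, by omega, hTm,
      fun k => (iter_mem_trap hm hxm k).2⟩
  · right
    have hall : ∀ y : ℝ, 0 < y → deriv cf y = 0 → MapClusterPt x atTop (fun k => cf^[k] y) →
        ∃ n : ℕ, 0 < n ∧ y = crit n ∧
          ∃ k : ℕ, 12 / 5 * (2 * (n : ℝ)) < (T^[k] (2 * n) : ℕ) := by
      intro y hy0 hy hcl
      have hy' : dcf y = 0 := by rw [← deriv_cf]; exact hy
      rcases critical_accum hy0 hy' hp hper hcl with h | ⟨N, hN, hNe, h1, h2, k, hk⟩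
      · exact absurd h htrap
      · obtain ⟨n, rfl⟩ : ∃ n, N = 2 * n := ⟨N / 2, by omega⟩
        have hn : 0 < n := by omega
        push_cast at h1 h2 hk
        exact ⟨n, hn, (crit_spec n hn).2.2.2 y h1 h2 hy, k, hk⟩
    refine ⟨?_, hall⟩
    obtain ⟨i, c, hc, hdc⟩ := singer hx0 ha
    have hxi0 : 0 < cf^[i] x := by
      clear hc
      induction i with
      | zero => exact hx0
      | succ i ih => rw [Function.iterate_succ_apply']; exact cf_pos _ ih
    have hai : IsAttracting (cf^[i] x) := isAttracting_iter ha i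
    obtain ⟨α, β, hα, -, -, hI, -, -⟩ := immediateBasin_eq_Ioo hxi0 hai
    have hc0 : 0 < c := by
      rw [hI] at hc
      exact hα.trans_lt hc.1
    have hmem : c ∈ basinOf (cf^[i] x) := connectedComponentIn_subset _ _ hc
    have hmp : minimalPeriod cf (cf^[i] x) = p :=
      minimalPeriod_apply_iterate (minimalPeriod_pos_iff_mem_periodicPts.1 hp) i
    have hten : Tendsto (fun k => cf^[p * k] c) atTop (𝓝 (cf^[i] x)) := by
      have h1 : Tendsto (fun k : ℕ => (cf^[minimalPeriod cf (cf^[i] x)])^[k] c) atTop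
        (𝓝 (cf^[i] x)) := hmem
      rw [hmp] at h1
      refine h1.congr (fun k => ?_)
      rw [Function.iterate_mul]
    obtain ⟨n, hn, hcn, -⟩ := hall c hc0 (by rw [deriv_cf]; exact hdc)
      (cluster_of_tendsto hp hper hten)
    exact ⟨n, i, hn, by rw [← hcn]; exact hten⟩

end Pool.Agent.Lib.MP_a247fa_nt.Cyc
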