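import Pool.Agent.Lib.MP_a247fa_nt.ShortExotic
import Pool.Agent.Lib.MP_a247fa_nt.IntSmall

/-!
Structure of the attracting cycles of Chamberland's map other than `{1, 2}` and the second
known 2-cycle.
-/

set_option autoImplicit false

namespace Pool.Agent.Lib.MP_a247fa_nt.Exo

open Real Function Pool.Agent.Lib.MP_a247fa_nt

/-- Some point of an attracting cycle has `|cf'| < 1`. -/
lemma exists_contracting {x : ℝ} (ha : IsAttracting x) :
    ∃ i, |dcf (cf^[i] x)| < 1 := by
  by_contra hcon
  push Not at hcon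
  obtain ⟨-, h⟩ := ha
  rw [deriv_iter, Finset.abs_prod] at h
  have : (1 : ℝ) ≤ ∏ i ∈ Finset.range (minimalPeriod cf x), |dcf (cf^[i] x)| := by
    calc (1 : ℝ) = ∏ i ∈ Finset.range (minimalPeriod cf x), 1 := by simp
      _ ≤ _ := Finset.prod_le_prod (fun _ _ => zero_le_one) fun i _ => hcon i
  linarith

lemma iter_back {x : ℝ} {p : ℕ} (hp : 0 < p) (hper : cf^[p] x = x) (i : ℕ) :
    cf^[p * i - i] (cf^[i] x) = x := by
  rw [← Function.iterate_add_apply]
  have h1 : p * i - i + i = p * i := Nat.sub_add_cancel (Nat.le_mul_of_pos_left i hp)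
  rw [h1, Function.iterate_mul]
  exact Function.iterate_fixed hper i

lemma per_iter {x : ℝ} {p : ℕ} (hper : cf^[p] x = x) (i : ℕ) :
    cf^[p] (cf^[i] x) = cf^[i] x := by
  rw [← Function.iterate_add_apply, add_comm, Function.iterate_add_apply, hper]

lemma T_per_iter {n : ℕ} {p : ℕ} (hper : T^[p] n = n) (i : ℕ) :
    T^[p] (T^[i] n) = T^[i] n := by
  rw [← Function.iterate_add_apply, add_comm, Function.iterate_add_apply, hper]

/-- the shadowing alternative -/
def Shadow (x : ℝ) : Prop :=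
  ∃ n : ℕ, 243 ≤ n ∧ T^[minimalPeriod cf x] n = n ∧
    ∀ k, |cf^[k] x - (T^[k] n : ℕ)| < 1 / ((T^[k] n : ℕ) + 1)

lemma in_trap {x : ℝ} (ha : IsAttracting x) {j m : ℕ} (hm : 0 < m)
    (hx : cf^[j] x ∈ trapI m) :
    (x = 1 ∨ x = 2 ∨ x = aPt ∨ x = bPt) ∨ Shadow x := by
  have hp := ha.1
  have hper : cf^[minimalPeriod cf x] x = x := isPeriodicPt_minimalPeriod cf x
  set p := minimalPeriod cf x with hpdef
  have h1 := iter_mem_trap hm hx (p * j - j)
  rw [iter_back hp hper] at h1
  obtain ⟨hn, hxn⟩ := h1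
  set n := T^[p * j - j] m
  have hTn : T^[p] n = n := periodic_of_trap hn hxn hper
  by_cases h1 : n = 1
  · left
    rw [h1] at hxn
    exact attracting_one_two (Or.inl hxn) ha
  by_cases h2 : n = 2
  · left
    rw [h2] at hxn
    exact attracting_one_two (Or.inr hxn) ha
  right
  refine ⟨n, large_of_periodic hn hp hTn h1 h2 0, hTn, fun k => ?_⟩
  obtain ⟨h3, h4⟩ := iter_mem_trap hn hxn k
  obtain ⟨h5, h6⟩ := h4
  have h7 : (0 : ℝ) < (T^[k] n : ℕ) := by exact_mod_cast h3
  rw [abs_lt]
  have h8 : 4 / (5 * (2 * ((T^[k] n : ℕ) : ℝ) + 1)) < 1 / ((T^[k] n : ℕ) + 1) := by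
    rw [div_lt_div_iff₀ (by positivity) (by positivity)]
    linarith
  have h9 : (0 : ℝ) < 1 / ((T^[k] n : ℕ) + 1) := by positivity
  constructor <;> linarith

/-- The alternatives for an attracting periodic point. -/
theorem trichotomy {x : ℝ} (hx : 0 < x) (ha : IsAttracting x) :
    (x = 1 ∨ x = 2 ∨ x = aPt ∨ x = bPt) ∨ Shadow x ∨
      ∃ k m, Pat m (cf^[k] x) := by
  have hp := ha.1
  have hper : cf^[minimalPeriod cf x] x = x := isPeriodicPt_minimalPeriod cf x
  by_cases htrap : ∃ j m, 0 < m ∧ cf^[j] x ∈ trapI m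
  · obtain ⟨j, m, hm, hxm⟩ := htrap
    rcases in_trap ha hm hxm with h | h
    · exact Or.inl h
    · exact Or.inr (Or.inl h)
  right
  push Not at htrap
  obtain ⟨i, hi⟩ := exists_contracting ha
  have hpos : ∀ k, 0 < cf^[k] x := by
    intro k
    induction k with
    | zero => exact hx
    | succ k ih => rw [Function.iterate_succ_apply']; exact cf_pos _ ih
  rcases window (hpos i) hi with h | ⟨n, hn, h | h⟩ | ⟨n, heven, hn, h⟩
  · exact absurd (per_iter hper i) (not_periodic_small (hpos i) h hp)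
  · exact absurd h (htrap i n hn)
  · rw [← Function.iterate_succ_apply' cf] at h
    exact absurd h (htrap (i + 1) _ (T_pos hn))
  · set p := minimalPeriod cf x with hpdef
    set y := cf^[i] x with hy
    have hpery : cf^[p] y = y := per_iter hper i
    have hno : ∀ k m, 0 < m → cf^[k] y ∉ trapI m := by
      intro k m hm
      rw [hy, ← Function.iterate_add_apply]
      exact htrap _ m hm
    rcases track hn heven h hno with hall | ⟨k₀, hpat⟩
    · left
      have hTn : T^[p] n = n := by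
        obtain ⟨l, hl⟩ : ∃ l, p = l + 1 := ⟨p - 1, by omega⟩
        have h1 := (hall l).leftOf
        rw [← hl, hpery] at h1
        exact (LeftOf.unique hn (T_iter_pos hn p) h (h1.mono (by norm_num))).symm
      have hn1 : n ≠ 1 := by omega
      have hn2 : n ≠ 2 := by
        rintro rfl
        exact no_left_two hp hpery hno h hall
      have hback : cf^[p * i - i] y = x := iter_back hp hper i
      have hbound : ∀ k, |cf^[k] y - (T^[k] n : ℕ)| < 1 / ((T^[k] n : ℕ) + 1) := by
        intro k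
        have h3 : LeftOf (T^[k] n) 0.67 (cf^[k] y) := by
          rcases Nat.eq_zero_or_pos k with rfl | hk
          · exact h
          · obtain ⟨l, hl⟩ : ∃ l, k = l + 1 := ⟨k - 1, by omega⟩
            rw [hl]
            exact (hall l).leftOf.mono (by norm_num)
        obtain ⟨h4, h5⟩ := h3
        have h6 : (0 : ℝ) < (T^[k] n : ℕ) + 1 := by positivity
        rw [abs_lt]
        refine ⟨?_, ?_⟩
        · rw [neg_lt, lt_div_iff₀ h6]
          linarith
        · have : (0 : ℝ) < 1 / ((T^[k] n : ℕ) + 1) := by positivity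
          linarith
      refine ⟨T^[p * i - i] n, large_of_periodic hn hp hTn hn1 hn2 _, T_per_iter hTn _, ?_⟩
      intro k
      have h1 := hbound (k + (p * i - i))
      rw [Function.iterate_add_apply, Function.iterate_add_apply, hback] at h1
      exact h1
    · right
      have h1 := pat_of_pattern hpat
      rw [hy, ← Function.iterate_add_apply] at h1
      exact ⟨k₀ + i, T^[k₀ + 1] n, h1⟩

theorem exotic_structure {x : ℝ} (hx : 0 < x) (ha : IsAttracting x) (h1 : x ≠ 1) (h2 : x ≠ 2)
    (h3 : x ≠ aPt) (h4 : x ≠ bPt) :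
      10 ≤ minimalPeriod cf x ∧ (∃ k, 241 < cf^[k] x) ∧
      ((∃ n : ℕ, 243 ≤ n ∧ T^[minimalPeriod cf x] n = n ∧
          ∀ k, |cf^[k] x - (T^[k] n : ℕ)| < 1 / ((T^[k] n : ℕ) + 1)) ∨
        ∃ k m : ℕ, m % 32 = 31 ∧
          (cf^[k] x < 2 * m ∧ 2 * m - 1 / (2 * m) < cf^[k] x) ∧
          ∀ i ≤ 5, cf^[k + 1 + i] x < (T^[i] m : ℕ) ∧
            (T^[i] m : ℕ) - 3 / ((T^[i] m : ℕ) + 1) < cf^[k + 1 + i] x) := by
  have hp := ha.1
  have hper : cf^[minimalPeriod cf x] x = x := isPeriodicPt_minimalPeriod cf x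
  rcases trichotomy hx ha with h | h | ⟨k, m, h⟩
  · rcases h with h | h | h | h
    · exact absurd h h1
    · exact absurd h h2
    · exact absurd h h3
    · exact absurd h h4
  · obtain ⟨n, hn, hTn, hk⟩ := h
    refine ⟨long_of_periodic (by omega) hp hTn (by omega) (by omega), ⟨0, ?_⟩,
      Or.inl ⟨n, hn, hTn, hk⟩⟩
    have h5 := hk 0
    simp only [Function.iterate_zero_apply] at h5 ⊢
    have hn' : (243 : ℝ) ≤ n := by exact_mod_cast hn
    have h6 : 1 / ((n : ℝ) + 1) ≤ 1 := by
      rw [div_le_one (by positivity)]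
      linarith
    have h7 := (abs_lt.mp h5).1
    linarith
  · refine ⟨pat_long h hp (per_iter hper k), ⟨6 + k, ?_⟩, Or.inr ⟨k, m, ?_, ?_, ?_⟩⟩
    · rw [Function.iterate_add_apply]
      exact pat_large h
    · exact run_five h.2.1
    · obtain ⟨h5, h6⟩ := h.1
      push_cast at h5 h6
      refine ⟨h5, ?_⟩
      have hm : 0 < m := by
        have := run_five h.2.1
        omega
      have hm' : (1 : ℝ) ≤ m := by exact_mod_cast hm
      have h7 : 2 * (m : ℝ) - cf^[k] x < 1 / (2 * m) := by
        rw [lt_div_iff₀ (by positivity)]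
        nlinarith
      linarith
    · intro i hi
      obtain ⟨h5, h6⟩ := h.2.2 i hi
      have e1 : cf^[k + 1 + i] x = cf^[i + 1] (cf^[k] x) := by
        rw [← Function.iterate_add_apply]
        congr 1
        ring
      rw [e1]
      refine ⟨h5, ?_⟩
      have hb : bB i < 3 := by
        interval_cases i <;> simp only [bB] <;> norm_num
      have h8 : (0 : ℝ) < (T^[i] m : ℕ) + 1 := by positivity
      have h7 : ((T^[i] m : ℕ) : ℝ) - cf^[i + 1] (cf^[k] x) < 3 / ((T^[i] m : ℕ) + 1) := by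
        rw [lt_div_iff₀ h8]
        linarith
      linarith

end Pool.Agent.Lib.MP_a247fa_nt.Exo
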